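import Pool.Agent.SLN.Main

/-! MP_73203d_an, questions Q1 and Q2 in the negative (two-dimensional domain): a smooth strongly
polyconvex (hence strongly quasiconvex) integrand `f` on `n × 2` matrices and a Lipschitz map on a
bounded open set of the plane, stationary for outer and inner variations of `∫ f(Du)`, that is
not partially regular. -/

open MeasureTheory Pool.Agent.SLG Pool.Agent.SLG.Sn

namespace Pool.Agent.Results.MP_73203d_an.Disproof

theorem result :
    ∃ (n : ℕ) (f : Mat n → ℝ), ContDiff ℝ ((⊤ : ℕ∞) : WithTop ℕ∞) f ∧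
      StronglyPolyconvex f ∧ StronglyQuasiconvex f ∧
      ∃ (Ω : Set E2) (u : E2 → Fin n → ℝ), IsOpen Ω ∧ Bornology.IsBounded Ω ∧
        (∃ K : NNReal, LipschitzOnWith K u Ω) ∧ Stationary f Ω u ∧ ¬ PartiallyRegular Ω u :=
  Pool.Agent.SLG.Sn.main

end Pool.Agent.Results.MP_73203d_an.Disproof
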