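import Pool.Agent.MP_73203d_an.QC

/-! MP_73203d_an: the set `K_f` of the stationarity inclusion contains no nontrivial bounded
staircase laminates, in particular no `T_N` configurations, for strictly rank-one convex
integrands and for strongly quasiconvex integrands of class `C²`. -/

open MP73203d

namespace Pool.Agent.Results.MP_73203d_an.NoStaircase

theorem result {n m : ℕ} (f : Mat n m → ℝ)
    (hf : StrictlyRankOneConvex f ∨ (ContDiff ℝ 2 f ∧ StronglyQuasiconvex f))
    (P A : ℕ → State n m) (lam : ℕ → ℝ) (hlam : ∀ j, 0 < lam j ∧ lam j < 1)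
    (hA : ∀ j, OnK f (A j)) (hconn : ∀ j, Conn (P (j + 1)) (A j))
    (hP : ∀ j, P j = lam j • P (j + 1) + (1 - lam j) • A j)
    (hbdd : Bornology.IsBounded (Set.range P))
    (hprod : Filter.Tendsto (fun J => ∏ j ∈ Finset.range J, lam j) Filter.atTop (nhds 0)) :
    ∀ j, P j = A 0 ∧ A j = A 0 := by
  have hf' : StrictlyRankOneConvex f := by
    rcases hf with hf | ⟨hf, hq⟩
    · exact hf
    · exact strictlyRankOneConvex_of_stronglyQuasiconvex hf hq
  exact staircase f hf' P A lam (fun j => (hlam j).1) (fun j => (hlam j).2) hA hconn hP hbdd hprod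

end Pool.Agent.Results.MP_73203d_an.NoStaircase
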