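import Pool.Agent.MP_73203d_an.WvBd

/-! MP_73203d_an: a smooth strongly polyconvex integrand on `7 × 2` matrices for which smooth
stationary maps of the plane satisfy no Caccioppoli inequality, and for which locally uniform
limits, with locally bounded gradients, of smooth stationary maps need not be weak solutions of
the Euler-Lagrange system. -/

open MeasureTheory Pool.Agent.SLG Pool.Agent.SLG.Wv

namespace Pool.Agent.Results.MP_73203d_an.NoWeakClosure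

theorem result :
    ∃ f : Mat 7 → ℝ, ContDiff ℝ ((⊤ : ℕ∞) : WithTop ℕ∞) f ∧ StronglyPolyconvex f ∧
      (∀ ε : ℝ, 0 < ε → ∃ u : E2 → Fin 7 → ℝ, ContDiff ℝ ((⊤ : ℕ∞) : WithTop ℕ∞) u ∧
        Stationary f Set.univ u ∧ ∀ x, ‖u x‖ ≤ ε ∧ Pool.Agent.SLG.sq (Jac u x) = 4) ∧
      ∃ (u : ℕ → E2 → Fin 7 → ℝ) (w : E2 → Fin 7 → ℝ),
        (∀ k, ContDiff ℝ ((⊤ : ℕ∞) : WithTop ℕ∞) (u k) ∧ Stationary f Set.univ (u k)) ∧
        ContDiff ℝ ((⊤ : ℕ∞) : WithTop ℕ∞) w ∧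
        (∀ R : ℝ, ∃ B : ℝ, ∀ k x, ‖x‖ ≤ R → ‖Jac (u k) x‖ ≤ B) ∧
        (∀ k x, ‖u k x - w x‖ ≤ 1 / ((k : ℝ) + 1)) ∧
        ∀ Ω : Set E2, IsOpen Ω → Ω.Nonempty → ¬ OuterCritical f Ω w := by
  refine ⟨fI, fI_contDiff, fI_spc, ?_, fun k => um ((k : ℝ) + 1) 1, wl, ?_, wl_smooth, ?_, ?_, ?_⟩
  · intro ε hε
    have hN : (ε⁻¹ : ℝ) ≠ 0 := inv_ne_zero hε.ne'
    refine ⟨um ε⁻¹ 0, um_smooth _ _, um_stationary hN 0, fun x => ⟨?_, ?_⟩⟩
    · exact um_norm hε.le x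
    · exact um_sq hN x
  · intro k
    have hN : ((k : ℝ) + 1) ≠ 0 := by positivity
    exact ⟨um_smooth _ _, um_stationary hN 1⟩
  · intro R
    exact um_bound R
  · intro k x
    exact um_close k x
  · intro Ω hΩ hne
    exact wl_not hΩ hne

end Pool.Agent.Results.MP_73203d_an.NoWeakClosure
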