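import Pool.Agent.SLG.H

set_option autoImplicit false

namespace Pool.Agent.Results.MP_73203d_an.TwoPointRegularity

open MeasureTheory Pool.Agent.SLG

/-- If `f` satisfies the two-point condition on the compact set `K` of `n × 2` matrices, then for
all integrands close to `f` in `C²` every stationary Lipschitz map of the plane with gradient in
`K` almost everywhere is partially regular. -/
theorem result {n : ℕ} (f : Mat n → ℝ) (hf : ContDiff ℝ 2 f) (K : Set (Mat n))
    (hK : IsCompact K) (hT : TwoPoint f K) :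
    ∃ ρ δ : ℝ, 0 < ρ ∧ 0 < δ ∧ ∀ h : Mat n → ℝ, ContDiff ℝ 2 h → SmallC2 ρ δ h →
      ∀ (Ω : Set E2) (u : E2 → Fin n → ℝ) (L : NNReal), IsOpen Ω → LipschitzOnWith L u Ω →
      Stationary (fun X => f X + h X) Ω u →
      (∀ᵐ x ∂(volume.restrict Ω), Jac u x ∈ K) → PartiallyRegular Ω u :=
  stable_regular f hf K hK hT

end Pool.Agent.Results.MP_73203d_an.TwoPointRegularity
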